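import Pool.Agent.Helper11x.Ch

/-!
# The cofinality of the character of an ultrafilter

Let `U` be a nonprincipal ultrafilter over an infinite set `X`, and let `θ` be the cofinality of
its character.

1. `θ` is uncountable.
2. If `U` is closed under intersections of fewer than `κ` sets, then `κ ≤ θ`.
3. There are fewer than `Ch U` members of `U` such that the filter generated by them does not have
   `2 ^ θ` pairwise disjoint positive sets.

So, if `X` has a strong limit cardinality `λ` and `θ < λ`, then `U` contains a filter with fewer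
than `Ch U` generators which is `2 ^ θ`-saturated, and `2 ^ θ < λ`.
-/

set_option autoImplicit false

namespace Pool.Agent.Results.MP_57cceb_lc.SaturatedPart

open Cardinal Pool.Agent.Helper11x.Char

universe u

theorem result (X : Type u) (U : Ultrafilter X) (hU : ∀ x : X, {x} ∉ U) :
    ℵ₀ < (Ch U).ord.cof ∧
    (∀ κ : Cardinal.{u}, (∀ T : Set (Set X), #T < κ → (∀ A ∈ T, A ∈ U) → ⋂₀ T ∈ U) →
      κ ≤ (Ch U).ord.cof) ∧
    ∃ S : Set (Set X), (∀ A ∈ S, A ∈ U) ∧ #S < Ch U ∧
      ∀ P : Set (Set X), (∀ A ∈ P, ∀ B ∈ P, A ≠ B → Disjoint A B) →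
        (∀ A ∈ P, ∀ B ∈ Filter.generate S, (A ∩ B).Nonempty) →
          #P < 2 ^ (Ch U).ord.cof := by
  refine ⟨lt_of_le_of_ne ?_ (cof_ne_aleph0 hU).symm, fun κ hκ => le_cof hU hκ,
    exists_saturated hU⟩
  exact Ordinal.aleph0_le_cof_iff.2 (Ordinal.one_lt_cof_iff.2
    (Cardinal.isSuccLimit_ord (aleph0_le_Ch hU)))

end Pool.Agent.Results.MP_57cceb_lc.SaturatedPart
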